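import Pool.Agent.Helper8.CL.Loc

/-! Project CL, B3: the local subgroup. -/

set_option autoImplicit false

namespace Pool.Agent.Helper8.CL

open NumberField IsDedekindDomain WithZero Polynomial Finset
open Pool.Agent.Helper3.CL hiding LC Harm
open Pool.Agent.Helper16.CB (Val)

section

variable {L : Type} [Field L] [NumberField L] {v : HeightOneSpectrum (𝓞 L)}

/-- the `l`-th power of a multiple of a monomial -/
theorem smul_mono_pow {F A : Type*} [Field F] [Ring A] [Algebra F A] {l : ℕ} (hl : l.Prime)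
    {ζ a b : F} (hζ : IsPrimitiveRoot ζ l) {x y : A} (h : Weyl l ζ a b x y) (c : F) (i j : ℕ) :
    (c • (x ^ i * y ^ j)) ^ l =
      algebraMap F A (c ^ l * ((-1) ^ ((l - 1) * (i * j)) * a ^ i * b ^ j)) := by
  rw [_root_.smul_pow, Weyl.mono_pow hl hζ h, Algebra.smul_def, ← map_mul]

theorem val_mono {l : ℕ} {a b c : L} {α β κ : ℤ} (ha : v.valuation L a = exp α)
    (hb : v.valuation L b = exp β) (hc : v.valuation L c = exp κ) (e i j : ℕ) :
    v.valuation L (c ^ l * ((-1) ^ e * a ^ i * b ^ j)) = exp (l * κ + i * α + j * β) := by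
  have h1 : v.valuation L ((-1 : L) ^ e) = 1 := by rw [map_pow, Valuation.map_neg, map_one, one_pow]
  rw [map_mul, map_mul, map_mul, h1, one_mul, map_pow, map_pow, map_pow, ha, hb, hc, exp_pow',
    exp_pow', exp_pow', ← exp_add, ← exp_add]
  congr 1
  ring

theorem neg_one_aux (l m n : ℕ) (hl : 0 < l) :
    ((-1 : L) ^ (m * n)) ^ l * (-1) ^ ((l - 1) * (n * ((l - 1) * m))) = (-1) ^ (m * n) := by
  obtain ⟨t, rfl⟩ : ∃ t, l = t + 1 := ⟨l - 1, by omega⟩
  rw [← pow_mul, ← pow_add, Nat.add_sub_cancel]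
  have h1 : m * n * (t + 1) + t * (n * (t * m)) = m * n + (t * (t + 1)) * (m * n) := by ring
  rw [h1, pow_add, pow_mul (-1 : L) (t * (t + 1)), (Nat.even_mul_succ_self t).neg_one_pow, one_pow,
    mul_one]

/-- B3: local subgroups. -/
theorem loc_sub {l : ℕ} (hl : l.Prime) {ζ : L} (hζ : IsPrimitiveRoot ζ l) {a b : 𝓞 L}
    (v : HeightOneSpectrum (𝓞 L)) (h : Pool.Agent.Helper3.CL.LC l v.asIdeal a b) :
    ∃ (α β : ℕ) (G : AddSubgroup (Fin l → Fin l → 𝓞 L)), Val v.asIdeal a α ∧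
      Val v.asIdeal b β ∧ G.index ≠ 0 ∧
      G.index ≤ Ideal.absNorm v.asIdeal ^ ((α + β) * (l * (l - 1) / 2)) ∧
      ∀ c ∈ G, ∀ (A : Type) [Ring A] [Algebra L A] (x y : A),
        Weyl l ζ (a : L)⁻¹ (b : L)⁻¹ x y → IntAt v (elt (fun i j => (c i j : L)) x y) := by
  obtain ⟨α, β, h, hα, hβ, hh⟩ := h
  have hva := val_eq hα
  have hvb := val_eq hβ
  have hva' : v.valuation L (a : L)⁻¹ = exp (α : ℤ) := by rw [map_inv₀, hva, ← exp_neg, neg_neg]
  have hvb' : v.valuation L (b : L)⁻¹ = exp (β : ℤ) := by rw [map_inv₀, hvb, ← exp_neg, neg_neg]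
  obtain ⟨π, hπ⟩ := v.valuation_exists_uniformizer L
  have hπ' : ∀ n : ℕ, v.valuation L (π ^ n) = exp (-(n : ℤ)) := fun n => by
    rw [map_pow, hπ, exp_pow']
    congr 1
    ring
  refine ⟨α, β, ?_⟩
  by_cases hdiv : l ∣ α ∧ l ∣ β
  · obtain ⟨⟨α', rfl⟩, β', rfl⟩ := hdiv
    have hr : v.valuation L ((π ^ α') ^ l * ((-1) ^ ((l - 1) * (1 * 0)) * (a : L)⁻¹ ^ 1 *
        (b : L)⁻¹ ^ 0)) = 1 := by
      rw [val_mono hva' hvb' (hπ' α'), ← exp_zero]
      congr 1
      push_cast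
      ring
    have hρ : v.valuation L ((π ^ β') ^ l * ((-1) ^ ((l - 1) * (0 * 1)) * (a : L)⁻¹ ^ 0 *
        (b : L)⁻¹ ^ 1)) = 1 := by
      rw [val_mono hva' hvb' (hπ' β'), ← exp_zero]
      congr 1
      push_cast
      ring
    obtain ⟨G, hG0, hG1, hG2⟩ := loc_gen (v := v) (l := l) hl.pos hζ (a := (a : L)) (b := (b : L))
      (κ := α') (η := β') (i1 := 1) (j1 := 0) (i2 := 0) (j2 := 1) (δ := 0) hva hvb
      (cw := π ^ α') (cY := π ^ β')
      (r₁ := (π ^ α') ^ l * ((-1) ^ ((l - 1) * (1 * 0)) * (a : L)⁻¹ ^ 1 * (b : L)⁻¹ ^ 0))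
      (ρ := (π ^ β') ^ l * ((-1) ^ ((l - 1) * (0 * 1)) * (a : L)⁻¹ ^ 0 * (b : L)⁻¹ ^ 1))
      (hπ' α') (hπ' β') rfl (by norm_num) (by ring) (by ring) hr.le
      (by rw [hρ, Nat.cast_zero, exp_zero]) (by
        rw [map_mul, hρ, one_mul]
        refine (Valuation.map_sub _ _ _).trans (max_le hr.le ?_)
        rw [map_one])
      (fun A _ _ x y hxy => smul_mono_pow hl hζ hxy _ _ _)
      (fun A _ _ x y hxy => smul_mono_pow hl hζ hxy _ _ _)
    exact ⟨G, hα, hβ, hG0, hG1, hG2⟩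
  · -- the other case
    have hkm : ∃ k m e : ℕ, α * k + β * m = l * e + 1 := by
      have key : ∀ n : ℕ, ¬ l ∣ n → ∃ k e : ℕ, n * k = l * e + 1 := by
        intro n hn
        have hcop : Nat.Coprime n l := ((Nat.Prime.coprime_iff_not_dvd hl).2 hn).symm
        obtain ⟨k, -, hk⟩ := Nat.exists_mul_mod_eq_one_of_coprime hcop hl.one_lt
        refine ⟨k, n * k / l, ?_⟩
        have := Nat.div_add_mod (n * k) l
        rw [hk] at this
        exact this.symm
      by_cases h1 : l ∣ α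
      · obtain ⟨m, e, hm⟩ := key β (fun h2 => hdiv ⟨h1, h2⟩)
        exact ⟨0, m, e, by rw [mul_zero, zero_add, hm]⟩
      · obtain ⟨k, e, hk⟩ := key α h1
        exact ⟨k, 0, e, by rw [mul_zero, add_zero, hk]⟩
    obtain ⟨k, m, e, hkme⟩ := hkm
    -- the tame symbol
    have hsym : v.valuation L ((-1) ^ (α * β) * (a : L) ^ β * (b : L) ^ ((l - 1) * α) -
        (h : L) ^ l) ≤ exp (-((l * (α * β) + 1 : ℕ) : ℤ)) := by
      have h1 := (v.intValuation_le_pow_iff_mem _ _).2 hh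
      rw [← v.valuation_of_algebraMap (K := L)] at h1
      simpa only [map_sub, map_mul, map_pow, map_neg, map_one] using h1
    have hvm : v.valuation L ((-1) ^ (α * β) * (a : L) ^ β * (b : L) ^ ((l - 1) * α)) =
        exp (-((l * (α * β) : ℕ) : ℤ)) := by
      have := val_mono (v := v) (l := 1) hva hvb (map_one (v.valuation L) |>.trans exp_zero.symm)
        (α * β) β ((l - 1) * α)
      rw [one_pow, one_mul] at this
      rw [this]
      congr 1
      have h2 : ((l - 1 : ℕ) : ℤ) = l - 1 := by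
        rw [Nat.cast_sub hl.one_le, Nat.cast_one]
      push_cast [h2]
      ring
    have hvh : v.valuation L (h : L) = exp (-((α * β : ℕ) : ℤ)) := by
      have h1 : v.valuation L ((h : L) ^ l) = exp (-((l * (α * β) : ℕ) : ℤ)) := by
        rw [← hvm]
        have h2 : v.valuation L ((-1) ^ (α * β) * (a : L) ^ β * (b : L) ^ ((l - 1) * α) -
            (h : L) ^ l) < v.valuation L ((-1) ^ (α * β) * (a : L) ^ β *
              (b : L) ^ ((l - 1) * α)) := by
          refine hsym.trans_lt ?_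
          rw [hvm, exp_lt_exp]
          push_cast
          omega
        have h3 := Valuation.map_sub_eq_of_lt_right _ h2
        rw [← h3, ← Valuation.map_neg]
        congr 1
        ring
      have h0 : (h : L) ≠ 0 := by
        intro h2
        rw [h2, zero_pow hl.ne_zero, map_zero] at h1
        exact exp_ne_zero h1.symm
      obtain ⟨t, ht⟩ : ∃ t : ℤ, v.valuation L (h : L) = exp t :=
        ⟨_, (exp_log ((v.valuation L).ne_zero_iff.2 h0)).symm⟩
      rw [map_pow, ht, exp_pow', exp_inj] at h1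
      rw [ht]
      congr 1
      have h2 : (l : ℤ) ≠ 0 := by exact_mod_cast hl.ne_zero
      apply mul_left_cancel₀ h2
      rw [h1]
      push_cast
      ring
    set cw : L := (-1) ^ (α * β) * (h : L) with hcw
    have hvcw : v.valuation L cw = exp (-((α * β : ℕ) : ℤ)) := by
      rw [hcw, map_mul, map_pow, Valuation.map_neg, map_one, one_pow, one_mul, hvh]
    set r₁ : L := cw ^ l * ((-1) ^ ((l - 1) * (β * ((l - 1) * α))) * (a : L)⁻¹ ^ β *
      (b : L)⁻¹ ^ ((l - 1) * α)) with hr₁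
    have ha0 : (a : L) ≠ 0 := fun h1 => by
      rw [h1, map_zero] at hva
      exact exp_ne_zero hva.symm
    have hb0 : (b : L) ≠ 0 := fun h1 => by
      rw [h1, map_zero] at hvb
      exact exp_ne_zero hvb.symm
    have hr1 : r₁ = (-1) ^ (α * β) * (h : L) ^ l * ((a : L)⁻¹ ^ β * (b : L)⁻¹ ^ ((l - 1) * α)) := by
      have e1 := neg_one_aux (L := L) l α β hl.pos
      rw [hr₁, hcw, mul_pow]
      generalize (-1 : L) ^ (α * β) = P at e1 ⊢
      generalize (-1 : L) ^ ((l - 1) * (β * ((l - 1) * α))) = Q at e1 ⊢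
      linear_combination ((h : L) ^ l * ((a : L)⁻¹ ^ β * (b : L)⁻¹ ^ ((l - 1) * α))) * e1
    have hr2 : v.valuation L (r₁ - 1) ≤ exp (-1 : ℤ) := by
      have h1 : r₁ - 1 = -((-1) ^ (α * β) * ((-1) ^ (α * β) * (a : L) ^ β *
          (b : L) ^ ((l - 1) * α) - (h : L) ^ l) * ((a : L)⁻¹ ^ β * (b : L)⁻¹ ^ ((l - 1) * α))) := by
        rw [hr1]
        have h2 : ((-1 : L) ^ (α * β)) * (-1) ^ (α * β) = 1 := by
          rw [← mul_pow]
          norm_num
        have h3 : (a : L) ^ β * (a : L)⁻¹ ^ β = 1 := by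
          rw [← mul_pow, mul_inv_cancel₀ ha0, one_pow]
        have h4 : (b : L) ^ ((l - 1) * α) * (b : L)⁻¹ ^ ((l - 1) * α) = 1 := by
          rw [← mul_pow, mul_inv_cancel₀ hb0, one_pow]
        generalize (-1 : L) ^ (α * β) = P at h2 ⊢
        generalize (a : L) ^ β = A1 at h3 ⊢
        generalize (a : L)⁻¹ ^ β = A2 at h3 ⊢
        generalize (b : L) ^ ((l - 1) * α) = B1 at h4 ⊢
        generalize (b : L)⁻¹ ^ ((l - 1) * α) = B2 at h4 ⊢
        linear_combination (A1 * A2 * (B1 * B2)) * h2 + (B1 * B2) * h3 + h4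
      have h5 : v.valuation L ((a : L)⁻¹ ^ β * (b : L)⁻¹ ^ ((l - 1) * α)) =
          exp ((l * (α * β) : ℕ) : ℤ) := by
        rw [map_mul, map_pow, map_pow, hva', hvb', exp_pow', exp_pow', ← exp_add]
        congr 1
        have h2 : ((l - 1 : ℕ) : ℤ) = l - 1 := by
          rw [Nat.cast_sub hl.one_le, Nat.cast_one]
        push_cast [h2]
        ring
      rw [h1, Valuation.map_neg, map_mul, map_mul, map_pow, Valuation.map_neg, map_one, one_pow,
        one_mul, h5]
      calc _ ≤ exp (-((l * (α * β) + 1 : ℕ) : ℤ)) * exp ((l * (α * β) : ℕ) : ℤ) := by gcongr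
        _ = exp (-1 : ℤ) := by
          rw [← exp_add]
          congr 1
          push_cast
          ring
    have hr3 : v.valuation L r₁ ≤ 1 := by
      have h1 : r₁ = (r₁ - 1) + 1 := by ring
      rw [h1]
      refine (Valuation.map_add _ _ _).trans (max_le (hr2.trans ?_) ?_)
      · rw [← exp_zero, exp_le_exp]
        norm_num
      · rw [map_one]
    have hρ : v.valuation L ((π ^ e) ^ l * ((-1) ^ ((l - 1) * (k * m)) * (a : L)⁻¹ ^ k *
        (b : L)⁻¹ ^ m)) = exp (1 : ℤ) := by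
      rw [val_mono hva' hvb' (hπ' e)]
      congr 1
      have h1 : (α : ℤ) * k + β * m = l * e + 1 := by exact_mod_cast hkme
      linear_combination h1
    obtain ⟨G, hG0, hG1, hG2⟩ := loc_gen (v := v) (l := l) hl.pos hζ (a := (a : L)) (b := (b : L))
      (κ := α * β) (η := e) (i1 := β) (j1 := (l - 1) * α) (i2 := k) (j2 := m) (δ := 1) hva hvb
      (cw := cw) (cY := π ^ e) (r₁ := r₁)
      (ρ := (π ^ e) ^ l * ((-1) ^ ((l - 1) * (k * m)) * (a : L)⁻¹ ^ k * (b : L)⁻¹ ^ m))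
      hvcw (hπ' e) (by
        rw [← ZMod.natCast_eq_natCast_iff]
        have h1 : (((α * k + β * m : ℕ)) : ZMod l) = ((l * e + 1 : ℕ) : ZMod l) := by rw [hkme]
        have h2 : ((l - 1 : ℕ) : ZMod l) = -1 := by
          rw [Nat.cast_sub hl.one_le, Nat.cast_one, ZMod.natCast_self, zero_sub]
        push_cast at h1 ⊢
        rw [ZMod.natCast_self, zero_mul, zero_add] at h1
        rw [h2]
        linear_combination h1) le_rfl (by
        obtain ⟨t, ht⟩ : ∃ t, l = t + 1 := ⟨l - 1, by have := hl.pos; omega⟩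
        rw [ht, Nat.add_sub_cancel]
        ring) hkme hr3 (by rw [hρ, Nat.cast_one]) (by
        rw [map_mul, hρ]
        calc exp (1 : ℤ) * v.valuation L (r₁ - 1) ≤ exp (1 : ℤ) * exp (-1 : ℤ) := by gcongr
          _ = 1 := by rw [← exp_add, add_neg_cancel, exp_zero])
      (fun A _ _ x y hxy => smul_mono_pow hl hζ hxy _ _ _)
      (fun A _ _ x y hxy => smul_mono_pow hl hζ hxy _ _ _)
    exact ⟨G, hα, hβ, hG0, hG1, hG2⟩

end

end Pool.Agent.Helper8.CL
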