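import Pool.Agent.Helper16.CB.Val

/-! Project CL, B3: indices of subgroups defined by conditions at one prime. -/

set_option autoImplicit false

namespace Pool.Agent.Helper8.CL

open NumberField IsDedekindDomain WithZero

section

variable {L : Type} [Field L] [NumberField L] (v : HeightOneSpectrum (𝓞 L))

theorem exists_approx {x : L} (hx : v.valuation L x ≤ 1) :
    ∃ r : 𝓞 L, v.valuation L (algebraMap (𝓞 L) L r - x) < 1 := by
  obtain ⟨r, hr⟩ := v.exists_valuation_sub_lt_of_integer hx (1 : (WithZero (Multiplicative ℤ))ˣ)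
  exact ⟨r, by simpa using hr⟩

/-- coordinate conditions -/
theorem index_coord {M ι : Type*} [AddCommGroup M] [Fintype ι] (p : ι → M →+ 𝓞 L) (n : ι → ℕ) :
    ∃ G : AddSubgroup M, (∀ m, m ∈ G ↔ ∀ i, p i m ∈ v.asIdeal ^ n i) ∧ G.index ≠ 0 ∧
      G.index ≤ Ideal.absNorm v.asIdeal ^ (∑ i, n i) := by
  classical
  let φ : M →+ (∀ i, 𝓞 L ⧸ v.asIdeal ^ n i) :=
    { toFun := fun m i => Ideal.Quotient.mk _ (p i m)
      map_zero' := by
        funext i
        rw [map_zero, map_zero]
        rfl
      map_add' := fun x y => by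
        funext i
        rw [map_add, map_add]
        rfl }
  have hfin : ∀ i, Finite (𝓞 L ⧸ v.asIdeal ^ n i) := fun i =>
    Ideal.finiteQuotientOfFreeOfNeBot _ (pow_ne_zero _ v.ne_bot)
  refine ⟨φ.ker, fun m => ?_, ?_, ?_⟩
  · rw [AddMonoidHom.mem_ker]
    constructor
    · intro h i
      have h1 := congrFun h i
      exact Ideal.Quotient.eq_zero_iff_mem.1 h1
    · intro h
      funext i
      exact Ideal.Quotient.eq_zero_iff_mem.2 (h i)
  · rw [AddSubgroup.index_ker]
    exact Nat.card_pos.ne'
  · rw [AddSubgroup.index_ker]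
    have h : Nat.card φ.range ≤ Nat.card (∀ i, 𝓞 L ⧸ v.asIdeal ^ n i) :=
      Nat.card_le_card_of_injective _ Subtype.val_injective
    refine h.trans ?_
    rw [Nat.card_pi]
    apply le_of_eq
    rw [← Finset.prod_pow_eq_pow_sum]
    refine Finset.prod_congr rfl fun i _ => ?_
    rw [← map_pow]
    rfl

/-- residue conditions -/
theorem index_res {M ι : Type*} [AddCommGroup M] [Fintype ι] (G : AddSubgroup M) (f : ι → M →+ L)
    (hf : ∀ m ∈ G, ∀ i, v.valuation L (f i m) ≤ 1) (hG : G.index ≠ 0) :
    ∃ G' : AddSubgroup M, (∀ m, m ∈ G' ↔ m ∈ G ∧ ∀ i, v.valuation L (f i m) < 1) ∧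
      G'.index ≠ 0 ∧ G'.index ≤ Ideal.absNorm v.asIdeal ^ Fintype.card ι * G.index := by
  classical
  have hex : ∀ (m : G) (i : ι), ∃ r : 𝓞 L, v.valuation L (algebraMap (𝓞 L) L r - f i m) < 1 :=
    fun m i => exists_approx v (hf m m.2 i)
  choose r hr using hex
  have hmem : ∀ x : 𝓞 L, v.valuation L (algebraMap (𝓞 L) L x) < 1 → x ∈ v.asIdeal := fun x hx => by
    rwa [HeightOneSpectrum.valuation_lt_one_iff_mem] at hx
  let φ : G →+ (ι → 𝓞 L ⧸ v.asIdeal) :=
    { toFun := fun m i => Ideal.Quotient.mk _ (r m i)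
      map_zero' := by
        funext i
        refine Ideal.Quotient.eq_zero_iff_mem.2 (hmem _ ?_)
        have := hr 0 i
        rwa [AddSubgroup.coe_zero, map_zero, sub_zero] at this
      map_add' := fun x y => by
        funext i
        rw [Pi.add_apply, ← map_add]
        refine (Ideal.Quotient.eq.2 (hmem _ ?_))
        have h1 := hr (x + y) i
        have h2 := hr x i
        have h3 := hr y i
        have h4 : algebraMap (𝓞 L) L (r (x + y) i - (r x i + r y i)) =
            (algebraMap (𝓞 L) L (r (x + y) i) - f i ((x + y : G) : M)) -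
            ((algebraMap (𝓞 L) L (r x i) - f i (x : M)) +
              (algebraMap (𝓞 L) L (r y i) - f i (y : M))) := by
          rw [AddSubgroup.coe_add, map_add (f i), map_sub, map_add]
          ring
        rw [h4]
        exact Valuation.map_sub_lt _ h1 (Valuation.map_add_lt _ h2 h3) }
  have hfin : Finite (𝓞 L ⧸ v.asIdeal) := Ideal.finiteQuotientOfFreeOfNeBot _ v.ne_bot
  have hker : ∀ m : G, m ∈ φ.ker ↔ ∀ i, v.valuation L (f i m) < 1 := by
    intro m
    rw [AddMonoidHom.mem_ker]
    have key : ∀ i, v.valuation L (f i m) < 1 ↔ r m i ∈ v.asIdeal := by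
      intro i
      rw [← HeightOneSpectrum.valuation_lt_one_iff_mem (K := L)]
      have h1 := hr m i
      constructor
      · intro h
        have := Valuation.map_add_lt _ h1 h
        rwa [sub_add_cancel] at this
      · intro h
        have := Valuation.map_sub_lt _ h h1
        rwa [sub_sub_cancel] at this
    constructor
    · intro h i
      rw [key]
      exact Ideal.Quotient.eq_zero_iff_mem.1 (congrFun h i)
    · intro h
      funext i
      exact Ideal.Quotient.eq_zero_iff_mem.2 ((key i).1 (h i))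
  refine ⟨φ.ker.map G.subtype, fun m => ?_, ?_⟩
  · rw [AddSubgroup.mem_map]
    constructor
    · rintro ⟨x, hx, rfl⟩
      exact ⟨x.2, (hker x).1 hx⟩
    · rintro ⟨h1, h2⟩
      exact ⟨⟨m, h1⟩, (hker _).2 h2, rfl⟩
  · have hle : φ.ker.map G.subtype ≤ G := by
      rintro _ ⟨x, -, rfl⟩
      exact x.2
    have hrel : (φ.ker.map G.subtype).relIndex G = φ.ker.index := by
      rw [AddSubgroup.relIndex]
      congr 1
      ext x
      rw [AddSubgroup.mem_addSubgroupOf, AddSubgroup.mem_map]
      constructor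
      · rintro ⟨y, hy, hxy⟩
        have : y = x := Subtype.ext hxy
        rwa [this] at hy
      · exact fun h => ⟨x, h, rfl⟩
    have h1 := AddSubgroup.relIndex_mul_index hle
    have h2 : φ.ker.index ≤ Ideal.absNorm v.asIdeal ^ Fintype.card ι := by
      rw [AddSubgroup.index_ker]
      have h : Nat.card φ.range ≤ Nat.card (ι → 𝓞 L ⧸ v.asIdeal) :=
        Nat.card_le_card_of_injective _ Subtype.val_injective
      refine h.trans ?_
      rw [Nat.card_fun, Nat.card_eq_fintype_card (α := ι)]
      exact le_rfl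
    have h3 : φ.ker.index ≠ 0 := by
      rw [AddSubgroup.index_ker]
      exact Nat.card_pos.ne'
    rw [hrel] at h1
    rw [← h1]
    exact ⟨Nat.mul_ne_zero h3 hG, Nat.mul_le_mul_right _ h2⟩

end

end Pool.Agent.Helper8.CL
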