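import Pool.Agent.Helper8.CL.Int
import Pool.Agent.Helper8.CL.Idx

/-! Project CL, B3: the lattice at one prime, general form. -/

set_option autoImplicit false

namespace Pool.Agent.Helper8.CL

open NumberField IsDedekindDomain WithZero Polynomial Finset
open Pool.Agent.Helper3.CL hiding LC Harm
open Pool.Agent.Helper16.CB (Val)

section comb

variable {l i1 j1 i2 j2 : ℕ}

/-- the index of the monomial `Y ^ s w ^ r` -/
def ij (hl : 0 < l) (i1 j1 i2 j2 : ℕ) (p : Fin l × Fin l) : Fin l × Fin l :=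
  (⟨(i2 * p.1 + i1 * p.2) % l, Nat.mod_lt _ hl⟩, ⟨(j2 * p.1 + j1 * p.2) % l, Nat.mod_lt _ hl⟩)

theorem fin_eq_of_cast {x y : Fin l} (h : ((x : ℕ) : ZMod l) = ((y : ℕ) : ZMod l)) : x = y := by
  rw [ZMod.natCast_eq_natCast_iff'] at h
  rw [Nat.mod_eq_of_lt x.2, Nat.mod_eq_of_lt y.2] at h
  exact Fin.ext h

theorem ij_injective (hl : 0 < l) (hC : i1 * j2 ≡ 1 + j1 * i2 [MOD l]) :
    Function.Injective (ij hl i1 j1 i2 j2) := by
  intro p q h
  have h1 : (i2 * p.1 + i1 * p.2) % l = (i2 * q.1 + i1 * q.2) % l :=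
    congrArg (fun z : Fin l × Fin l => (z.1 : ℕ)) h
  have h2 : (j2 * p.1 + j1 * p.2) % l = (j2 * q.1 + j1 * q.2) % l :=
    congrArg (fun z : Fin l × Fin l => (z.2 : ℕ)) h
  rw [← ZMod.natCast_eq_natCast_iff'] at h1 h2
  rw [← ZMod.natCast_eq_natCast_iff] at hC
  push_cast at h1 h2 hC
  refine Prod.ext (fin_eq_of_cast ?_) (fin_eq_of_cast ?_)
  · linear_combination (i1 : ZMod l) * h2 - (j1 : ZMod l) * h1 -
      (((p.1 : ℕ) : ZMod l) - ((q.1 : ℕ) : ZMod l)) * hC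
  · linear_combination (j2 : ZMod l) * h1 - (i2 : ZMod l) * h2 -
      (((p.2 : ℕ) : ZMod l) - ((q.2 : ℕ) : ZMod l)) * hC

/-- the permutation of the monomials -/
noncomputable def ijE (hl : 0 < l) (hC : i1 * j2 ≡ 1 + j1 * i2 [MOD l]) :
    Fin l × Fin l ≃ Fin l × Fin l :=
  Equiv.ofBijective _ (Finite.injective_iff_bijective.1 (ij_injective hl hC))

theorem ijE_apply (hl : 0 < l) (hC : i1 * j2 ≡ 1 + j1 * i2 [MOD l]) (p : Fin l × Fin l) :
    ijE hl hC p = ij hl i1 j1 i2 j2 p := rfl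

theorem sum_fin (l : ℕ) : ∑ i : Fin l, (i : ℕ) = l * (l - 1) / 2 := by
  rw [Fin.sum_univ_eq_sum_range (fun i => i) l, sum_range_id]

theorem sum_n (hl : 0 < l) (hC : i1 * j2 ≡ 1 + j1 * i2 [MOD l]) {α β δ : ℕ}
    {n : Fin l × Fin l → ℕ}
    (hn : ∀ p, l * n p + δ * (p.1 : ℕ) = α * ((ijE hl hC p).1 : ℕ) + β * ((ijE hl hC p).2 : ℕ)) :
    ∑ p, n p + δ * (l * (l - 1) / 2) = (α + β) * (l * (l - 1) / 2) := by
  have h1 : ∑ p, (l * n p + δ * (p.1 : ℕ)) =
      ∑ p : Fin l × Fin l, (α * (p.1 : ℕ) + β * (p.2 : ℕ)) := by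
    rw [← Equiv.sum_comp (ijE hl hC) (fun p : Fin l × Fin l => α * (p.1 : ℕ) + β * (p.2 : ℕ))]
    exact sum_congr rfl fun p _ => hn p
  have h2 : ∑ p : Fin l × Fin l, (p.1 : ℕ) = l * (l * (l - 1) / 2) := by
    rw [Fintype.sum_prod_type]
    simp only [sum_const, card_univ, Fintype.card_fin, smul_eq_mul]
    rw [← mul_sum, sum_fin]
  have h3 : ∑ p : Fin l × Fin l, (p.2 : ℕ) = l * (l * (l - 1) / 2) := by
    rw [Fintype.sum_prod_type]
    simp only [sum_fin, sum_const, card_univ, Fintype.card_fin, smul_eq_mul]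
  rw [sum_add_distrib, sum_add_distrib, ← mul_sum, ← mul_sum, ← mul_sum, ← mul_sum, h2, h3] at h1
  have h4 : l * (∑ p, n p + δ * (l * (l - 1) / 2)) = l * ((α + β) * (l * (l - 1) / 2)) := by
    linear_combination h1
  exact Nat.eq_of_mul_eq_mul_left hl h4

end comb

section

variable {L : Type} [Field L] [NumberField L] {v : HeightOneSpectrum (𝓞 L)}

theorem exp_pow' (k : ℤ) (n : ℕ) : (exp k : WithZero (Multiplicative ℤ)) ^ n = exp (n * k) := by
  rw [← exp_nsmul, nsmul_eq_mul]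

theorem val_eq {a : 𝓞 L} {n : ℕ} (h : Val v.asIdeal a n) :
    v.valuation L (a : L) = exp (-(n : ℤ)) := by
  have ha : a ≠ 0 := by
    rintro rfl
    exact h.2 (zero_mem _)
  have h0 : v.valuation L (a : L) = v.intValuation a := v.valuation_of_algebraMap a
  rw [h0]
  have h1 : v.intValuation a ≤ exp (-(n : ℤ)) := (v.intValuation_le_pow_iff_mem a n).2 h.1
  have h2 : ¬ v.intValuation a ≤ exp (-((n + 1 : ℕ) : ℤ)) := fun h3 =>
    h.2 ((v.intValuation_le_pow_iff_mem a (n + 1)).1 h3)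
  rw [v.intValuation_eq_exp_neg_multiplicity ha] at h1 h2 ⊢
  rw [exp_le_exp] at h1 h2
  congr 1
  push_cast at h2
  omega

end

end Pool.Agent.Helper8.CL
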