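import Pool.Agent.Helper8.CL.Weyl
import Pool.Agent.Helper16.CL.Ord
import Pool.Agent.Helper3.CL.IntDef

/-! Project CL, B3: the integral elements of the algebra of a Weyl pair. -/

set_option autoImplicit false

namespace Pool.Agent.Helper8.CL

open NumberField IsDedekindDomain WithZero Polynomial Finset

export Pool.Agent.Helper3.CL (IntAt)

/-- the polynomial `∏_(k < s) (X - ζ^(-k))` -/
noncomputable def Nm {F : Type*} [Field F] (ζ : F) (s : ℕ) : F[X] :=
  ∏ k ∈ range s, (X - C ((ζ⁻¹) ^ k))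

theorem Nm_monic {F : Type*} [Field F] (ζ : F) (s : ℕ) : (Nm ζ s).Monic :=
  monic_prod_of_monic _ _ fun _ _ => monic_X_sub_C _

theorem natDegree_Nm {F : Type*} [Field F] (ζ : F) (s : ℕ) : (Nm ζ s).natDegree = s := by
  unfold Nm
  rw [natDegree_prod_of_monic _ _ fun _ _ => monic_X_sub_C _]
  simp

theorem Nm_succ {F : Type*} [Field F] {ζ : F} (hζ : ζ ≠ 0) (s : ℕ) :
    (Nm ζ s).comp (C ζ * X) * (X - 1) = C (ζ ^ s) * Nm ζ (s + 1) := by
  have h1 : Nm ζ (s + 1) = (∏ k ∈ range s, (X - C ((ζ⁻¹) ^ (k + 1)))) * (X - 1) := by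
    unfold Nm
    rw [prod_range_succ', pow_zero, C_1]
  rw [h1, ← mul_assoc]
  congr 1
  unfold Nm
  rw [Polynomial.prod_comp]
  have h2 : (C (ζ ^ s) : F[X]) = ∏ _k ∈ range s, C ζ := by
    rw [prod_const, card_range, C_pow]
  rw [h2, ← prod_mul_distrib]
  refine prod_congr rfl fun k _ => ?_
  rw [sub_comp, X_comp, C_comp, mul_sub, ← C_mul, pow_succ, mul_comm _ ζ⁻¹, ← mul_assoc,
    mul_inv_cancel₀ hζ, one_mul]

section

variable {F A : Type*} [Field F] [Ring A] [Algebra F A] {ζ : F} {w Y : A}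

theorem aeval_mul_Y (hwY : w * Y = ζ • (Y * w)) (p : F[X]) :
    aeval w p * Y = Y * aeval w (p.comp (C ζ * X)) := by
  have h1 : ∀ n : ℕ, w ^ n * Y = Y * (ζ • w) ^ n := by
    intro n
    induction n with
    | zero => simp
    | succ n ih =>
      rw [pow_succ, mul_assoc, hwY, mul_smul_comm, ← mul_assoc, ih, pow_succ, mul_assoc,
        mul_smul_comm, mul_smul_comm]
  have h2 : aeval w (p.comp (C ζ * X)) = aeval (ζ • w) p := by
    rw [aeval_comp]
    congr 2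
    rw [map_mul, aeval_C, aeval_X, Algebra.smul_def]
  rw [h2]
  clear h2
  induction p using Polynomial.induction_on' with
  | add p q hp hq => rw [map_add, map_add, add_mul, mul_add, hp, hq]
  | monomial n c =>
    rw [aeval_monomial, aeval_monomial, mul_assoc, h1, ← mul_assoc, ← mul_assoc,
      Algebra.commutes]

/-- `(Y (w - 1)) ^ s = ζ ^ (s (s - 1) / 2) Y ^ s Nm_s (w)` -/
theorem g_pow (hζ : ζ ≠ 0) (hwY : w * Y = ζ • (Y * w)) (s : ℕ) :
    (Y * (w - 1)) ^ s = ζ ^ (s * (s - 1) / 2) • (Y ^ s * aeval w (Nm ζ s)) := by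
  induction s with
  | zero => simp [Nm]
  | succ s ih =>
    have h0 : (s + 1) * (s + 1 - 1) / 2 = s * (s - 1) / 2 + s := by
      rcases s with _ | n
      · rfl
      · have h2 : (n + 1 + 1) * (n + 1 + 1 - 1) = (n + 1) * (n + 1 - 1) + (n + 1) * 2 := by
          simp only [Nat.add_sub_cancel]
          ring
        rw [h2, Nat.add_mul_div_right _ _ (by norm_num)]
    have h1 : aeval w (Nm ζ s) * Y * (w - 1) = ζ ^ s • (Y * aeval w (Nm ζ (s + 1))) := by
      rw [aeval_mul_Y hwY, mul_assoc]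
      have h2 : aeval w ((Nm ζ s).comp (C ζ * X)) * (w - 1) =
          aeval w ((Nm ζ s).comp (C ζ * X) * (X - 1)) := by
        rw [map_mul, map_sub, aeval_X, map_one]
      rw [h2, Nm_succ hζ, map_mul, aeval_C, ← mul_smul_comm, Algebra.smul_def]
    rw [pow_succ, ih, smul_mul_assoc, mul_assoc, ← mul_assoc (aeval w (Nm ζ s)), h1, mul_smul_comm,
      smul_smul, ← mul_assoc, ← pow_succ, ← pow_add, h0]

theorem Nm_self {l : ℕ} (hl : 0 < l) (hζ : IsPrimitiveRoot ζ l) : Nm ζ l = X ^ l - 1 := by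
  have h := X_pow_sub_C_eq_prod (hζ.inv) hl (one_pow l)
  rw [← C_1, h]
  unfold Nm
  simp only [mul_one]

end

section

variable {L : Type} [Field L] [NumberField L] (v : HeightOneSpectrum (𝓞 L))

/-- the valuation ring -/
noncomputable abbrev OV : Subring L := (v.valuation L).integer

variable {v}

theorem exists_lift {p : L[X]} (hp : ∀ n, v.valuation L (p.coeff n) ≤ 1) :
    ∃ q : (OV v)[X], q.map (OV v).subtype = p := by
  have h : p ∈ Polynomial.lifts (OV v).subtype := by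
    rw [Polynomial.lifts_iff_coeff_lifts]
    intro n
    exact ⟨⟨p.coeff n, hp n⟩, rfl⟩
  rwa [Polynomial.mem_lifts] at h

theorem coeff_le_of_map {p : L[X]} {q : (OV v)[X]} (h : q.map (OV v).subtype = p) (n : ℕ) :
    v.valuation L (p.coeff n) ≤ 1 := by
  rw [← h, coeff_map]
  exact (q.coeff n).2

theorem val_zeta {l : ℕ} {ζ : L} (hl : 0 < l) (hζ : ζ ^ l = 1) : v.valuation L ζ = 1 := by
  have h1 : v.valuation L ζ ^ l = 1 := by rw [← map_pow, hζ, map_one]
  exact (pow_eq_one_iff_of_nonneg zero_le hl.ne').1 h1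

theorem Nm_lift {l : ℕ} {ζ : L} (hl : 0 < l) (hζ : ζ ^ l = 1) (s : ℕ) :
    ∃ q : (OV v)[X], q.Monic ∧ q.map (OV v).subtype = Nm ζ s := by
  have hz : v.valuation L ζ⁻¹ ≤ 1 := by rw [map_inv₀, val_zeta hl hζ, inv_one]
  refine ⟨∏ k ∈ range s, (X - C (⟨ζ⁻¹, hz⟩ ^ k)), monic_prod_of_monic _ _ fun _ _ =>
    monic_X_sub_C _, ?_⟩
  rw [Polynomial.map_prod]
  unfold Nm
  refine prod_congr rfl fun k _ => ?_
  rw [Polynomial.map_sub, map_X, map_C]
  rfl

theorem divMod_le {l : ℕ} {ζ : L} (hl : 0 < l) (hζ : ζ ^ l = 1) (s : ℕ) {f : L[X]}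
    (hf : ∀ n, v.valuation L (f.coeff n) ≤ 1) (n : ℕ) :
    v.valuation L ((f %ₘ Nm ζ s).coeff n) ≤ 1 ∧ v.valuation L ((f /ₘ Nm ζ s).coeff n) ≤ 1 := by
  obtain ⟨q, hq, hqm⟩ := Nm_lift (v := v) hl hζ s
  obtain ⟨g, hg⟩ := exists_lift hf
  constructor
  · refine coeff_le_of_map (q := g %ₘ q) ?_ n
    rw [Polynomial.map_modByMonic _ hq, hqm, hg]
  · refine coeff_le_of_map (q := g /ₘ q) ?_ n
    rw [Polynomial.map_divByMonic _ hq, hqm, hg]

theorem intAt_of_isIntegral {A : Type*} [Ring A] [Algebra L A] {x : A}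
    (h : IsIntegral (OV v) x) : IntAt v x := by
  obtain ⟨p, hp, hx⟩ := h
  refine ⟨p.map (OV v).subtype, hp.map _, fun n => ?_, ?_⟩
  · rw [coeff_map]
    exact (p.coeff n).2
  · rw [aeval_def, eval₂_map]
    exact hx

theorem smul_mem_adjoin {A : Type*} [Ring A] [Algebra L A] {S : Set A} {c : L} {x : A}
    (hc : v.valuation L c ≤ 1) (hx : x ∈ Algebra.adjoin (OV v) S) :
    c • x ∈ Algebra.adjoin (OV v) S := by
  have h := Subalgebra.smul_mem _ hx (⟨c, hc⟩ : OV v)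
  exact h

theorem aeval_mem_adjoin {A : Type*} [Ring A] [Algebra L A] {S : Set A} {w : A}
    (hw : w ∈ Algebra.adjoin (OV v) S) {p : L[X]} (hp : ∀ n, v.valuation L (p.coeff n) ≤ 1) :
    aeval w p ∈ Algebra.adjoin (OV v) S := by
  rw [aeval_eq_sum_range]
  exact sum_mem fun n _ => smul_mem_adjoin (hp n) (pow_mem hw n)

/-- **INT** -/
theorem int_of
    {A : Type} [Ring A] [Algebra L A] {l : ℕ} (hl : 0 < l) {ζ : L} (hζ : IsPrimitiveRoot ζ l)
    {w Y z : A} {ρ r₁ : L} (hwY : w * Y = ζ • (Y * w)) (hYz : Y * z = 1) (hzY : z * Y = 1)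
    (hwl : w ^ l = algebraMap L A r₁) (hYl : Y ^ l = algebraMap L A ρ)
    (hr : v.valuation L r₁ ≤ 1) (hρ : 1 ≤ v.valuation L ρ)
    (hρr : v.valuation L (ρ * (r₁ - 1)) ≤ 1) (f : ℕ → L[X])
    (hf : ∀ s < l, ∀ t, v.valuation L ((f s).coeff t) ≤ 1)
    (hrem : ∀ s < l, ∀ t, v.valuation L (ρ * (f s %ₘ Nm ζ s).coeff t) ≤ 1) :
    IntAt v (∑ s ∈ range l, Y ^ s * aeval w (f s)) := by
  have hζ0 : ζ ≠ 0 := hζ.ne_zero hl.ne'
  have hvζ : v.valuation L ζ = 1 := val_zeta hl hζ.pow_eq_one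
  have hvζ' : v.valuation L ζ⁻¹ = 1 := by rw [map_inv₀, hvζ, inv_one]
  have hρ0 : ρ ≠ 0 := by
    rintro rfl
    rw [map_zero] at hρ
    exact absurd hρ (by simp)
  set g : A := Y * (w - 1) with hg
  have hzw : z * w = ζ • (w * z) := by
    have h1 : z * (w * Y) * z = ζ • (z * (Y * w) * z) := by
      rw [hwY, mul_smul_comm, smul_mul_assoc]
    have h2 : z * (w * Y) * z = z * w := by
      rw [← mul_assoc, mul_assoc, hYz, mul_one]
    have h3 : z * (Y * w) * z = w * z := by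
      rw [← mul_assoc, hzY, one_mul]
    rw [← h2, h1, h3]
  have hYw : Y * w = ζ⁻¹ • (w * Y) := by
    rw [hwY, smul_smul, inv_mul_cancel₀ hζ0, one_smul]
  have hwg : w * g = ζ • (g * w) := by
    rw [hg, ← mul_assoc, hwY, smul_mul_assoc]
    congr 1
    rw [mul_assoc, mul_assoc, sub_mul, mul_sub, one_mul, mul_one]
  have hzg : z * g = w - 1 := by
    rw [hg, ← mul_assoc, hzY, one_mul]
  have hgz : g * z = ζ⁻¹ • w - 1 := by
    rw [hg, mul_sub, mul_one, sub_mul, hYz, hYw, smul_mul_assoc, mul_assoc, hYz, mul_one]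
  have hgl : g ^ l = algebraMap L A (ζ ^ (l * (l - 1) / 2) * (ρ * (r₁ - 1))) := by
    rw [hg, g_pow hζ0 hwY, Nm_self hl hζ, map_sub, map_pow, aeval_X, map_one, hYl, hwl, map_mul,
      map_mul, map_sub, map_one, Algebra.smul_def]
  have hzl : z ^ l = algebraMap L A ρ⁻¹ := by
    have h1 : z ^ l * Y ^ l = 1 := by
      have hc : Commute z Y := by
        show z * Y = Y * z
        rw [hzY, hYz]
      rw [← hc.mul_pow, hzY, one_pow]
    have h2 : z ^ l * (algebraMap L A ρ * algebraMap L A ρ⁻¹) = algebraMap L A ρ⁻¹ := by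
      rw [← mul_assoc, ← hYl, h1, one_mul]
    rw [← map_mul, mul_inv_cancel₀ hρ0, map_one, mul_one] at h2
    exact h2
  have hYs : ∀ s < l, Y ^ s = ρ • z ^ (l - s) := by
    intro s hs
    have h1 : Y ^ s * (z ^ s * z ^ (l - s)) = z ^ (l - s) := by
      have hc : Commute Y z := by
        show Y * z = z * Y
        rw [hzY, hYz]
      rw [← mul_assoc, ← hc.mul_pow, hYz, one_pow, one_mul]
    rw [← pow_add, Nat.add_sub_cancel' hs.le, hzl] at h1
    rw [← h1, Algebra.smul_def, ← Algebra.commutes, ← mul_assoc, ← map_mul, mul_inv_cancel₀ hρ0,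
      map_one, one_mul]
  have hinv : v.valuation L ρ⁻¹ ≤ 1 := by
    rw [map_inv₀]
    exact inv_le_one_of_one_le₀ hρ
  have hr2 : v.valuation L (ζ ^ (l * (l - 1) / 2) * (ρ * (r₁ - 1))) ≤ 1 := by
    rw [map_mul, map_pow, hvζ, one_pow, one_mul]
    exact hρr
  refine intAt_of_isIntegral (Pool.Agent.Helper16.CL.ord_integral (R := OV v) (A := A) hl (ζ := ⟨ζ, hvζ.le⟩)
    (ζ' := ⟨ζ⁻¹, hvζ'.le⟩) (Subtype.ext (mul_inv_cancel₀ hζ0)) (g := g) (z := z) (w := w)
    hwg hzw hzg hgz (r₁ := ⟨r₁, hr⟩) (r₂ := ⟨_, hr2⟩) (r₃ := ⟨ρ⁻¹, hinv⟩) hwl hgl hzl ?_)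
  have hgm : g ∈ Algebra.adjoin (OV v) {g, z, w} := Algebra.subset_adjoin (by simp)
  have hzm : z ∈ Algebra.adjoin (OV v) {g, z, w} := Algebra.subset_adjoin (by simp)
  have hwm : w ∈ Algebra.adjoin (OV v) {g, z, w} := Algebra.subset_adjoin (by simp)
  refine sum_mem fun s hs => ?_
  have hs' : s < l := mem_range.1 hs
  have hsplit : f s = Nm ζ s * (f s /ₘ Nm ζ s) + f s %ₘ Nm ζ s := by
    rw [add_comm]
    exact (modByMonic_add_div (f s) (Nm ζ s)).symm
  rw [hsplit, map_add, map_mul, mul_add]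
  refine add_mem ?_ ?_
  · have h1 : Y ^ s * aeval w (Nm ζ s) = (ζ⁻¹) ^ (s * (s - 1) / 2) • g ^ s := by
      rw [hg, g_pow hζ0 hwY, smul_smul, ← mul_pow, inv_mul_cancel₀ hζ0, one_pow, one_smul]
    rw [← mul_assoc, h1]
    refine mul_mem (smul_mem_adjoin ?_ (pow_mem hgm s)) (aeval_mem_adjoin hwm fun n =>
      (divMod_le hl hζ.pow_eq_one s (hf s hs') n).2)
    rw [map_pow, hvζ', one_pow]
  · rw [hYs s hs', smul_mul_assoc, ← mul_smul_comm]
    refine mul_mem (pow_mem hzm _) ?_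
    have h2 : ρ • aeval w (f s %ₘ Nm ζ s) = aeval w (C ρ * (f s %ₘ Nm ζ s)) := by
      rw [map_mul, aeval_C, Algebra.smul_def]
    rw [h2]
    refine aeval_mem_adjoin hwm fun n => ?_
    rw [coeff_C_mul]
    exact hrem s hs' n

end

end Pool.Agent.Helper8.CL
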