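import Pool.Agent.Helper8.CL.Gen

/-! Project CL, B3: the local subgroup, general form. -/

set_option autoImplicit false

namespace Pool.Agent.Helper8.CL

open NumberField IsDedekindDomain WithZero Polynomial Finset
open Pool.Agent.Helper3.CL hiding LC Harm
open Pool.Agent.Helper16.CB (Val)

section alg

variable {F A : Type*} [Field F] [Ring A] [Algebra F A] {l : ℕ} {ζ a b : F} {x y : A}

theorem pow_split (ha : x ^ l = algebraMap F A a) (N : ℕ) :
    x ^ N = (a ^ (N / l)) • x ^ (N % l) := by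
  conv_lhs => rw [← Nat.div_add_mod N l, pow_add, pow_mul, ha, ← map_pow]
  rw [Algebra.smul_def]

/-- the scalar of the monomial `Y ^ s w ^ r` -/
def scal (l : ℕ) (ζ a b cw cY : F) (i1 j1 i2 j2 s r : ℕ) : F :=
  cY ^ s * cw ^ r * (ζ⁻¹) ^ (i2 * j2 * (s * (s - 1) / 2) + i1 * j1 * (r * (r - 1) / 2) +
    s * j2 * (r * i1)) * a ^ ((i2 * s + i1 * r) / l) * b ^ ((j2 * s + j1 * r) / l)

theorem mono_eq (h : Weyl l ζ a b x y) (hζ : ζ ≠ 0) (cw cY : F) (i1 j1 i2 j2 s r : ℕ) :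
    (cY • (x ^ i2 * y ^ j2)) ^ s * (cw • (x ^ i1 * y ^ j1)) ^ r =
      scal l ζ a b cw cY i1 j1 i2 j2 s r •
        (x ^ ((i2 * s + i1 * r) % l) * y ^ ((j2 * s + j1 * r) % l)) := by
  have e1 : s * i2 + r * i1 = i2 * s + i1 * r := by ring
  have e2 : s * j2 + r * j1 = j2 * s + j1 * r := by ring
  have h1 : (cY • (x ^ i2 * y ^ j2)) ^ s = (cY ^ s * (ζ⁻¹) ^ (i2 * j2 * (s * (s - 1) / 2))) •
      (x ^ (s * i2) * y ^ (s * j2)) := by
    rw [_root_.smul_pow, Weyl.mono_pow_aux h hζ, smul_smul]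
  have h2 : (cw • (x ^ i1 * y ^ j1)) ^ r = (cw ^ r * (ζ⁻¹) ^ (i1 * j1 * (r * (r - 1) / 2))) •
      (x ^ (r * i1) * y ^ (r * j1)) := by
    rw [_root_.smul_pow, Weyl.mono_pow_aux h hζ, smul_smul]
  rw [h1, h2, smul_mul_smul_comm, Weyl.mono_mul h hζ, smul_smul, e1, e2,
    pow_split h.xpow (i2 * s + i1 * r), pow_split h.ypow (j2 * s + j1 * r), smul_mul_smul_comm,
    smul_smul]
  congr 1
  unfold scal
  ring

theorem comm_wY (h : Weyl l ζ a b x y) (hl : 0 < l) (hζ : IsPrimitiveRoot ζ l) (cw cY : F)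
    {i1 j1 i2 j2 : ℕ} (hC : i1 * j2 ≡ 1 + j1 * i2 [MOD l]) :
    (cw • (x ^ i1 * y ^ j1)) * (cY • (x ^ i2 * y ^ j2)) =
      ζ • ((cY • (x ^ i2 * y ^ j2)) * (cw • (x ^ i1 * y ^ j1))) := by
  have hζ0 : ζ ≠ 0 := hζ.ne_zero hl.ne'
  have h1 : ζ ^ (i1 * j2) = ζ * ζ ^ (j1 * i2) := by
    rw [← pow_succ', add_comm]
    rw [← pow_mod_orderOf, ← hζ.eq_orderOf, hC, hζ.eq_orderOf, pow_mod_orderOf]
  have h2 : (ζ⁻¹) ^ (j1 * i2) = ζ * (ζ⁻¹) ^ (j2 * i1) := by
    rw [inv_pow, inv_pow, mul_comm j2 i1, h1, mul_inv, ← mul_assoc, mul_inv_cancel₀ hζ0, one_mul]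
  rw [smul_mul_smul_comm, smul_mul_smul_comm, Weyl.mono_mul h hζ0, Weyl.mono_mul h hζ0,
    smul_smul, smul_smul, smul_smul, h2, add_comm i1 i2, add_comm j1 j2]
  congr 1
  ring

end alg

section

variable {L : Type} [Field L] [NumberField L] {v : HeightOneSpectrum (𝓞 L)}

theorem val_scal {l : ℕ} (hl : 0 < l) {ζ a b cw cY : L} (hζ : IsPrimitiveRoot ζ l)
    {α β κ η : ℤ} (ha : v.valuation L a = exp α) (hb : v.valuation L b = exp β)
    (hw : v.valuation L cw = exp (-κ)) (hY : v.valuation L cY = exp (-η))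
    (i1 j1 i2 j2 s r : ℕ) :
    v.valuation L (scal l ζ a b cw cY i1 j1 i2 j2 s r) =
      exp (-(η * s + κ * r - α * ((i2 * s + i1 * r) / l : ℕ) - β * ((j2 * s + j1 * r) / l : ℕ))) := by
  have hz : v.valuation L ζ⁻¹ = 1 := by rw [map_inv₀, val_zeta hl hζ.pow_eq_one, inv_one]
  unfold scal
  rw [map_mul, map_mul, map_mul, map_mul, map_pow, map_pow, map_pow, map_pow, map_pow, hz, one_pow,
    mul_one, ha, hb, hw, hY, exp_pow', exp_pow', exp_pow', exp_pow', ← exp_add, ← exp_add,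
    ← exp_add]
  congr 1
  ring

/-- the general form of B3 -/
theorem loc_gen {l : ℕ} (hl : 0 < l) {ζ : L} (hζ : IsPrimitiveRoot ζ l) {a b : L}
    {α β κ η i1 j1 i2 j2 δ : ℕ} (ha : v.valuation L a = exp (-(α : ℤ)))
    (hb : v.valuation L b = exp (-(β : ℤ))) {cw cY r₁ ρ : L}
    (hw : v.valuation L cw = exp (-(κ : ℤ))) (hY : v.valuation L cY = exp (-(η : ℤ)))
    (hC : i1 * j2 ≡ 1 + j1 * i2 [MOD l]) (hδ : δ ≤ 1)
    (h1 : l * κ = α * i1 + β * j1) (h2 : α * i2 + β * j2 = l * η + δ)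
    (hr : v.valuation L r₁ ≤ 1) (hρ : v.valuation L ρ = exp (δ : ℤ))
    (hρr : v.valuation L (ρ * (r₁ - 1)) ≤ 1)
    (hwl : ∀ (A : Type) [Ring A] [Algebra L A] (x y : A), Weyl l ζ a⁻¹ b⁻¹ x y →
      (cw • (x ^ i1 * y ^ j1)) ^ l = algebraMap L A r₁)
    (hYl : ∀ (A : Type) [Ring A] [Algebra L A] (x y : A), Weyl l ζ a⁻¹ b⁻¹ x y →
      (cY • (x ^ i2 * y ^ j2)) ^ l = algebraMap L A ρ) :
    ∃ G : AddSubgroup (Fin l → Fin l → 𝓞 L), G.index ≠ 0 ∧
      G.index ≤ Ideal.absNorm v.asIdeal ^ ((α + β) * (l * (l - 1) / 2)) ∧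
      ∀ c ∈ G, ∀ (A : Type) [Ring A] [Algebra L A] (x y : A),
        Weyl l ζ a⁻¹ b⁻¹ x y → IntAt v (elt (fun i j => (c i j : L)) x y) := by
  classical
  have hζ0 : ζ ≠ 0 := hζ.ne_zero hl.ne'
  have ha' : v.valuation L a⁻¹ = exp (α : ℤ) := by rw [map_inv₀, ha, ← exp_neg, neg_neg]
  have hb' : v.valuation L b⁻¹ = exp (β : ℤ) := by rw [map_inv₀, hb, ← exp_neg, neg_neg]
  set sc : Fin l × Fin l → L := fun p => scal l ζ a⁻¹ b⁻¹ cw cY i1 j1 i2 j2 p.1 p.2 with hsc
  -- the exponents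
  have hn : ∃ n : Fin l × Fin l → ℕ, (∀ p, v.valuation L (sc p) = exp (-(n p : ℤ))) ∧
      ∀ p, l * n p + δ * (p.1 : ℕ) = α * ((ijE hl hC p).1 : ℕ) + β * ((ijE hl hC p).2 : ℕ) := by
    have key : ∀ p : Fin l × Fin l, ∃ n : ℕ, v.valuation L (sc p) = exp (-(n : ℤ)) ∧
        l * n + δ * (p.1 : ℕ) = α * ((ijE hl hC p).1 : ℕ) + β * ((ijE hl hC p).2 : ℕ) := by
      intro p
      set Nx := i2 * (p.1 : ℕ) + i1 * (p.2 : ℕ) with hNx
      set Ny := j2 * (p.1 : ℕ) + j1 * (p.2 : ℕ) with hNy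
      set n0 : ℤ := (η : ℤ) * (p.1 : ℕ) + κ * (p.2 : ℕ) - α * (Nx / l : ℕ) - β * (Ny / l : ℕ)
        with hn0
      have hv : v.valuation L (sc p) = exp (-n0) :=
        val_scal hl hζ ha' hb' hw hY i1 j1 i2 j2 p.1 p.2
      have e1 : (l : ℤ) * (Nx / l : ℕ) + (Nx % l : ℕ) = Nx := by exact_mod_cast Nat.div_add_mod Nx l
      have e2 : (l : ℤ) * (Ny / l : ℕ) + (Ny % l : ℕ) = Ny := by exact_mod_cast Nat.div_add_mod Ny l
      have e3 : (l : ℤ) * κ = α * i1 + β * j1 := by exact_mod_cast h1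
      have e4 : (α : ℤ) * i2 + β * j2 = l * η + δ := by exact_mod_cast h2
      have e5 : (Nx : ℤ) = i2 * (p.1 : ℕ) + i1 * (p.2 : ℕ) := by rw [hNx]; push_cast; ring
      have e6 : (Ny : ℤ) = j2 * (p.1 : ℕ) + j1 * (p.2 : ℕ) := by rw [hNy]; push_cast; ring
      have hmain : (l : ℤ) * n0 + δ * (p.1 : ℕ) = α * (Nx % l : ℕ) + β * (Ny % l : ℕ) := by
        rw [hn0]
        linear_combination (-(α : ℤ)) * e1 - (β : ℤ) * e2 + ((p.2 : ℕ) : ℤ) * e3 +
          (-((p.1 : ℕ) : ℤ)) * e4 - (α : ℤ) * e5 - (β : ℤ) * e6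
      have hpos : 0 ≤ n0 := by
        by_contra hneg
        push Not at hneg
        have h3 : (p.1 : ℕ) < l := p.1.2
        have h4 : (δ : ℤ) * (p.1 : ℕ) ≤ (p.1 : ℕ) := by
          have h5 : (δ : ℤ) ≤ 1 := by exact_mod_cast hδ
          have h6 : (0 : ℤ) ≤ ((p.1 : ℕ) : ℤ) := by positivity
          nlinarith
        have h7 : (l : ℤ) * n0 ≤ -l := by
          have h8 : (0 : ℤ) < l := by exact_mod_cast hl
          nlinarith
        have h9 : (0 : ℤ) ≤ α * (Nx % l : ℕ) + β * (Ny % l : ℕ) := by positivity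
        have h10 : ((p.1 : ℕ) : ℤ) < l := by exact_mod_cast h3
        linarith
      obtain ⟨n, hnn⟩ := Int.eq_ofNat_of_zero_le hpos
      refine ⟨n, by rw [hv, hnn], ?_⟩
      have h11 : (l : ℤ) * n + δ * (p.1 : ℕ) = α * (Nx % l : ℕ) + β * (Ny % l : ℕ) := by
        rw [← hmain, hnn]
      rw [ijE_apply]
      unfold ij
      show l * n + δ * (p.1 : ℕ) = α * (Nx % l) + β * (Ny % l)
      exact_mod_cast h11
    choose n hn using key
    exact ⟨n, fun p => (hn p).1, fun p => (hn p).2⟩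
  obtain ⟨n, hnv, hnl⟩ := hn
  have hsum := sum_n hl hC hnl
  -- the first subgroup
  let pc : Fin l × Fin l → (Fin l → Fin l → 𝓞 L) →+ 𝓞 L := fun p =>
    { toFun := fun c => c (ijE hl hC p).1 (ijE hl hC p).2
      map_zero' := rfl
      map_add' := fun _ _ => rfl }
  obtain ⟨G1, hG1m, hG10, hG1i⟩ := index_coord v pc n
  -- the coefficients
  let dd : Fin l × Fin l → (Fin l → Fin l → 𝓞 L) →+ L := fun p =>
    { toFun := fun c => (pc p c : L) * (sc p)⁻¹
      map_zero' := by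
        rw [map_zero]
        simp
      map_add' := fun x y => by
        rw [map_add]
        push_cast
        ring }
  have hdd : ∀ p c, dd p c = (c (ijE hl hC p).1 (ijE hl hC p).2 : L) * (sc p)⁻¹ := fun p c => rfl
  have hsc0 : ∀ p, sc p ≠ 0 := fun p h => by
    have := hnv p
    rw [h, map_zero] at this
    exact exp_ne_zero this.symm
  have hdint : ∀ c ∈ G1, ∀ p, v.valuation L (dd p c) ≤ 1 := by
    intro c hc p
    have h3 := (hG1m c).1 hc p
    have h4 : v.valuation L (pc p c : L) ≤ exp (-(n p : ℤ)) := by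
      have h5 : v.valuation L (pc p c : L) = v.intValuation (pc p c) :=
        v.valuation_of_algebraMap (pc p c)
      rw [h5]
      exact (v.intValuation_le_pow_iff_mem _ _).2 h3
    rw [hdd, map_mul, map_inv₀, hnv p, ← exp_neg, neg_neg]
    calc v.valuation L (pc p c : L) * exp (n p : ℤ)
        ≤ exp (-(n p : ℤ)) * exp (n p : ℤ) := by gcongr
      _ = 1 := by rw [← exp_add, neg_add_cancel, exp_zero]
  -- the polynomials
  let ff : ℕ → (Fin l → Fin l → 𝓞 L) →+ L[X] := fun s =>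
    if hs : s < l then
      { toFun := fun c => ∑ r : Fin l, C (dd (⟨s, hs⟩, r) c) * X ^ (r : ℕ)
        map_zero' := by simp
        map_add' := fun x y => by
          rw [← sum_add_distrib]
          refine sum_congr rfl fun r _ => ?_
          rw [map_add, C_add, add_mul] }
    else 0
  have hff : ∀ (s : ℕ) (hs : s < l) c, ff s c = ∑ r : Fin l, C (dd (⟨s, hs⟩, r) c) * X ^ (r : ℕ) := by
    intro s hs c
    show (dite _ _ _ : (Fin l → Fin l → 𝓞 L) →+ L[X]) c = _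
    rw [dif_pos hs]
    rfl
  have hffc : ∀ c ∈ G1, ∀ s < l, ∀ t, v.valuation L ((ff s c).coeff t) ≤ 1 := by
    intro c hc s hs t
    rw [hff s hs, finsetSum_coeff]
    refine Valuation.map_sum_le _ fun r _ => ?_
    rw [coeff_C_mul, coeff_X_pow]
    split_ifs
    · rw [mul_one]
      exact hdint c hc _
    · rw [mul_zero, map_zero]
      exact zero_le
  -- the second subgroup
  let ll : (Σ s : Fin l, Fin (δ * (s : ℕ))) → (Fin l → Fin l → 𝓞 L) →+ L := fun q =>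
    ((lcoeff L (q.2 : ℕ)).comp (modByMonicHom (Nm ζ (q.1 : ℕ)))).toAddMonoidHom.comp (ff q.1)
  have hll : ∀ q c, ll q c = (ff q.1 c %ₘ Nm ζ (q.1 : ℕ)).coeff q.2 := fun q c => rfl
  obtain ⟨G2, hG2m, hG20, hG2i⟩ := index_res v G1 ll (fun c hc q => by
    rw [hll]
    exact (divMod_le hl hζ.pow_eq_one _ (hffc c hc _ q.1.2) _).1) hG10
  refine ⟨G2, hG20, ?_, ?_⟩
  · refine hG2i.trans ((Nat.mul_le_mul_left _ hG1i).trans (le_of_eq ?_))
    rw [← pow_add]
    congr 1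
    rw [← hsum, Fintype.card_sigma]
    simp only [Fintype.card_fin]
    rw [← mul_sum, sum_fin, add_comm]
  · intro c hc A _ _ x y hxy
    obtain ⟨hc1, hc2⟩ := (hG2m c).1 hc
    set w : A := cw • (x ^ i1 * y ^ j1) with hwdef
    set Y : A := cY • (x ^ i2 * y ^ j2) with hYdef
    have hwY : w * Y = ζ • (Y * w) := comm_wY hxy hl hζ cw cY hC
    have hρ0 : ρ ≠ 0 := by
      rintro rfl
      rw [map_zero] at hρ
      exact exp_ne_zero hρ.symm
    have hYl' : Y ^ l = algebraMap L A ρ := hYl A x y hxy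
    have hwl' : w ^ l = algebraMap L A r₁ := hwl A x y hxy
    have hz : ∃ z : A, Y * z = 1 ∧ z * Y = 1 := by
      refine ⟨ρ⁻¹ • Y ^ (l - 1), ?_, ?_⟩
      · rw [mul_smul_comm, ← pow_succ', Nat.sub_add_cancel hl, hYl', Algebra.smul_def, ← map_mul,
          inv_mul_cancel₀ hρ0, map_one]
      · rw [smul_mul_assoc, ← pow_succ, Nat.sub_add_cancel hl, hYl', Algebra.smul_def, ← map_mul,
          inv_mul_cancel₀ hρ0, map_one]
    obtain ⟨z, hYz, hzY⟩ := hz
    have hint := int_of (v := v) hl hζ hwY hYz hzY hwl' hYl' hr (by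
      rw [hρ, ← exp_zero, exp_le_exp]
      positivity) hρr (fun s => ff s c) (fun s hs t => hffc c hc1 s hs t) (by
      intro s hs t
      have h3 := (divMod_le (v := v) hl hζ.pow_eq_one s (hffc c hc1 s hs) t).1
      rw [map_mul, hρ]
      rcases Nat.le_one_iff_eq_zero_or_eq_one.1 hδ with h0 | h0
      · rw [h0, Nat.cast_zero, exp_zero, one_mul]
        exact h3
      · rcases lt_or_ge t s with hts | hts
        · have h4 := hc2 ⟨⟨s, hs⟩, ⟨t, by rw [h0, one_mul]; exact hts⟩⟩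
          rw [hll] at h4
          have h5 : v.valuation L ((ff s c %ₘ Nm ζ s).coeff t) < 1 := h4
          rw [h0, Nat.cast_one]
          by_cases h6 : (ff s c %ₘ Nm ζ s).coeff t = 0
          · rw [h6, map_zero, mul_zero]
            exact zero_le
          · obtain ⟨k, hk⟩ : ∃ k : ℤ, v.valuation L ((ff s c %ₘ Nm ζ s).coeff t) = exp k :=
              ⟨_, (exp_log ((v.valuation L).ne_zero_iff.2 h6)).symm⟩
            rw [hk, ← exp_zero, exp_lt_exp] at h5
            rw [hk, ← exp_add, ← exp_zero, exp_le_exp]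
            omega
        · have h4 : (ff s c %ₘ Nm ζ s).coeff t = 0 := by
            refine coeff_eq_zero_of_degree_lt ?_
            refine (degree_modByMonic_lt _ (Nm_monic ζ s)).trans_le ?_
            rw [degree_eq_natDegree (Nm_monic ζ s).ne_zero, natDegree_Nm]
            exact_mod_cast hts
          rw [h4, map_zero, mul_zero]
          exact zero_le)
    have hfin : elt (fun i j => (c i j : L)) x y = ∑ s ∈ range l, Y ^ s * aeval w (ff s c) := by
      unfold elt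
      rw [← Fintype.sum_prod_type' (f := fun i j : Fin l => (c i j : L) • (x ^ (i : ℕ) * y ^ (j : ℕ))),
        ← Equiv.sum_comp (ijE hl hC), ← Fin.sum_univ_eq_sum_range (fun s => Y ^ s * aeval w (ff s c)),
        Fintype.sum_prod_type]
      refine sum_congr rfl fun s _ => ?_
      rw [hff s s.2, map_sum, mul_sum]
      refine sum_congr rfl fun r _ => ?_
      rw [map_mul, aeval_C, map_pow, aeval_X, ← Algebra.smul_def, mul_smul_comm, hwdef, hYdef,
        mono_eq hxy hζ0, smul_smul, hdd]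
      congr 1
      show _ = (c (ijE hl hC (s, r)).1 (ijE hl hC (s, r)).2 : L) * (sc (s, r))⁻¹ * sc (s, r)
      rw [mul_assoc, inv_mul_cancel₀ (hsc0 _), mul_one]
    rw [hfin]
    exact hint

end

end Pool.Agent.Helper8.CL
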