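import Pool.Agent.Helper3.CL.Defs

/-! Project CL, B1: Weyl pairs. -/

set_option autoImplicit false

namespace Pool.Agent.Helper8.CL

open Pool.Agent.Helper3.CL

section

variable {F A : Type*} [Field F] [Ring A] [Algebra F A] {l : ℕ} {ζ a b : F} {x y : A}

theorem Weyl.comm_pow (h : Weyl l ζ a b x y) (j : ℕ) : x * y ^ j = ζ ^ j • (y ^ j * x) := by
  induction j with
  | zero => simp
  | succ j ih =>
    rw [pow_succ, ← mul_assoc, ih, smul_mul_assoc, mul_assoc, h.comm, mul_smul_comm, smul_smul,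
      ← mul_assoc, pow_succ]

/-- B1a -/
theorem Weyl.pow_comm (h : Weyl l ζ a b x y) (_hζ : ζ ≠ 0) (i j : ℕ) :
    x ^ i * y ^ j = ζ ^ (i * j) • (y ^ j * x ^ i) := by
  induction i with
  | zero => simp
  | succ i ih =>
    rw [pow_succ, mul_assoc, Weyl.comm_pow h, mul_smul_comm, ← mul_assoc, ih, smul_mul_assoc,
      smul_smul, mul_assoc, ← pow_add]
    congr 2
    ring

theorem Weyl.comm_pow' (h : Weyl l ζ a b x y) (hζ : ζ ≠ 0) (i j : ℕ) :
    y ^ j * x ^ i = (ζ⁻¹) ^ (j * i) • (x ^ i * y ^ j) := by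
  rw [Weyl.pow_comm h hζ, smul_smul, mul_comm j i, ← mul_pow, inv_mul_cancel₀ hζ, one_pow,
    one_smul]

/-- B1b: the product of two monomials. -/
theorem Weyl.mono_mul (h : Weyl l ζ a b x y) (hζ : ζ ≠ 0) (i j k m : ℕ) :
    x ^ i * y ^ j * (x ^ k * y ^ m) = (ζ⁻¹) ^ (j * k) • (x ^ (i + k) * y ^ (j + m)) := by
  have h1 : x ^ i * y ^ j * (x ^ k * y ^ m) = x ^ i * (y ^ j * x ^ k) * y ^ m := by
    simp only [mul_assoc]
  rw [h1, Weyl.comm_pow' h hζ, mul_smul_comm, smul_mul_assoc, pow_add, pow_add]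
  simp only [mul_assoc]

theorem Weyl.mono_pow_aux (h : Weyl l ζ a b x y) (hζ : ζ ≠ 0) (i j n : ℕ) :
    (x ^ i * y ^ j) ^ n = (ζ⁻¹) ^ (i * j * (n * (n - 1) / 2)) • (x ^ (n * i) * y ^ (n * j)) := by
  induction n with
  | zero => simp
  | succ n ih =>
    rw [pow_succ, ih, smul_mul_assoc, Weyl.mono_mul h hζ, smul_smul, ← pow_add]
    have h1 : (n + 1) * (n + 1 - 1) / 2 = n * (n - 1) / 2 + n := by
      rcases n with _ | n
      · rfl
      · have h2 : (n + 1 + 1) * (n + 1 + 1 - 1) = (n + 1) * (n + 1 - 1) + (n + 1) * 2 := by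
          simp only [Nat.add_sub_cancel]
          ring
        rw [h2, Nat.add_mul_div_right _ _ (by norm_num)]
    rw [h1, show (n + 1) * i = n * i + i by ring, show (n + 1) * j = n * j + j by ring,
      show i * j * (n * (n - 1) / 2 + n) = i * j * (n * (n - 1) / 2) + n * j * i by ring]

/-- B1c: the `l`-th power of a monomial. -/
theorem Weyl.mono_pow (hl : l.Prime) (hζ : IsPrimitiveRoot ζ l) (h : Weyl l ζ a b x y)
    (i j : ℕ) :
    (x ^ i * y ^ j) ^ l = algebraMap F A ((-1) ^ ((l - 1) * (i * j)) * a ^ i * b ^ j) := by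
  have hζ0 : ζ ≠ 0 := hζ.ne_zero hl.ne_zero
  rw [Weyl.mono_pow_aux h hζ0, pow_mul x, pow_mul y, h.xpow, h.ypow, ← map_pow, ← map_pow,
    ← map_mul, Algebra.smul_def, ← map_mul]
  congr 1
  rw [mul_assoc ((-1 : F) ^ _)]
  congr 1
  rcases hl.eq_two_or_odd' with h2 | h2
  · subst h2
    have h3 : ζ = -1 := by
      have := hζ.eq_neg_one_of_two_right
      exact this
    rw [h3]
    norm_num
  · obtain ⟨k, hk⟩ := h2
    have h3 : l * (l - 1) / 2 = l * k := by
      have : l - 1 = k * 2 := by omega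
      rw [this, ← mul_assoc, Nat.mul_div_cancel _ (by norm_num)]
    have h4 : l - 1 = 2 * k := by omega
    have h5 : ζ ^ (i * j * (l * k)) = 1 := by
      rw [show i * j * (l * k) = l * (i * j * k) by ring, pow_mul, hζ.pow_eq_one, one_pow]
    rw [h3, inv_pow, h5, inv_one, h4, mul_assoc 2 k, pow_mul]
    norm_num

end

end Pool.Agent.Helper8.CL
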